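import Mathlib
import Pool.Agent.H813Z.LpRed
import Pool.Agent.H813Z.LpInst
import Pool.Agent.H813Z.LpSanity

set_option autoImplicit false

namespace Pool.Agent.Results.MP_3ad462_an.ADenseInvertibles

open Pool.Agent.H813Z.LpCross

/-- For every irrational rotation `h` of the unit circle and every exponent `p ≥ 1`, the invertible
elements of the reduced `L^p` crossed product `F^p_r(ℤ, S¹, h)` are dense. -/
theorem result :
    ∀ (θ : ℝ), Irrational θ → ∀ (h : Circle ≃ₜ Circle),
      (∀ z : Circle, (h z : ℂ) = Complex.exp (2 * Real.pi * Complex.I * θ) * z) →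
      ∀ (p : ENNReal) [Fact (1 ≤ p)], Dense {a : FpRed p h | IsUnit a} := by
  intro θ hθ h hh p _
  have : Nontrivial Circle := ⟨⟨-1, 1, Circle.neg_ne_self 1⟩⟩
  have : Infinite Circle := PreconnectedSpace.infinite
  refine dense_units_red (sys_rot hθ fun z => Circle.ext ?_) p
  rw [hh, Circle.coe_mul, Circle.coe_exp]
  congr 2
  push_cast
  ring

end Pool.Agent.Results.MP_3ad462_an.ADenseInvertibles
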